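import Pool.Agent.Helper50_PDS.Tube4

/-! PDS: the tubes with vertices of degree 1. -/

namespace PDS.H81

open Multiset PDS.H50

theorem raise2 (h : Raise 1 1 1) : Raise 2 1 2 := by
  intro x D hD
  have h1 := h x D hD
  have h2 := h (x + 1) _ h1
  rw [show x + 1 + 1 = x + 2 by ring, add_assoc, ← Multiset.replicate_add] at h2
  exact h2

theorem tube1 (hR : Raise 1 1 1) (hF : FillStmt) : Tube 1 := by
  intro β K
  rcases Nat.eq_zero_or_pos K with rfl | hK
  · refine ⟨0, by omega, ?_⟩
    simpa using rz_zero
  · have h0 := assemble 1 2 (raise2 hR) hF 0 K hK (F4 K 0) (by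
      intro c p
      rw [F4_deg K 0 c p]
      have := p.2.isLt
      rw [if_pos (by omega), if_pos (by omega)])
    rw [show 4 * K * 0 + 8 * 2 = 16 by ring, show 0 + 6 = 6 by ring] at h0
    have h1 : Rz ((Finset.univ : Finset (Fin (8 * K))).val.map (fun _ => 6) + replicate 16 1) := by
      rw [Multiset.map_const']
      simpa using h0
    have h2 := hF 1 1 1 hR _ (fun _ => 6) (fun _ => β) (replicate 16 1) h1
    rw [Multiset.map_const'] at h2
    simp only [Finset.card_val, Finset.card_univ, Fintype.card_fin, Finset.sum_const, smul_eq_mul,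
      one_mul, add_assoc] at h2
    rw [← Multiset.replicate_add, add_comm 6 β] at h2
    refine ⟨16 + 8 * K * β, ?_, h2⟩
    have : cap 1 = 1 := rfl
    rw [this]
    omega

end PDS.H81
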